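import Pool.Agent.H88.MCR.Stmts

/-!
Row TWA: arcs of the twisted diagram.
-/

namespace Pool.MCR

theorem twa_arcs_map {L M : Type} (f : L → M) (l : List L) (s : Bool) :
    arcs s (l.map f) = (arcs s l).map (fun A => (A.1, f A.2.1, f A.2.2)) := by
  induction l generalizing s with
  | nil => simp [arcs]
  | cons a l ih =>
    cases l with
    | nil => simp [arcs]
    | cons b t =>
      have h := ih (!s)
      simp only [List.map_cons] at h ⊢
      simp only [arcs, List.map_cons, h]

theorem twa_arcs_mem {L : Type} (l : List L) (s : Bool) :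
    ∀ A ∈ arcs s l, A.2.1 ∈ l := by
  induction l generalizing s with
  | nil => simp [arcs]
  | cons a l ih =>
    cases l with
    | nil => simp [arcs]
    | cons b t =>
      intro A hA
      simp only [arcs, List.mem_cons] at hA
      rcases hA with rfl | hA
      · simp
      · have := ih (!s) A hA
        exact List.mem_cons_of_mem _ this

theorem twa_l0 {L : Type} (l : List L) (s : Bool) :
    arcs s (l.map (fun c => lp c 0)) = (arcs s l).map l0 := by
  rw [twa_arcs_map]
  rfl

theorem twa_ta_tail {L : Type} [LinearOrder L] (D : Diag L) (w : ℕ) (l : List L) (s : Bool)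
    (h : D.pos w ∉ l) :
    (arcs s l).map (ta D w) = arcs s (l.map (fun c => lp c 0)) := by
  rw [twa_l0]
  apply List.map_congr_left
  intro A hA
  have h1 := twa_arcs_mem l s A hA
  have h2 : A.2.1 ≠ D.pos w := fun h3 => h (h3 ▸ h1)
  simp [ta, l0, h2]

theorem twa_ta_head {L : Type} [LinearOrder L] (D : Diag L) (w : ℕ) (l : List L) (s : Bool)
    (h : D.pos w ∉ l) :
    (arcs s (D.pos w :: l)).map (ta D w) =
      arcs s (lp (D.pos w) 1 :: l.map (fun c => lp c 0)) := by
  cases l with
  | nil => simp [arcs]
  | cons b t =>
    have h1 := twa_ta_tail D w (b :: t) (!s) h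
    simp only [List.map_cons] at h1
    simp only [arcs, List.map_cons, h1]
    simp [ta]

theorem twa_thm (h1 : ARV_S) : TWA_S := by
  intro L _ n D w x hG hw hx hxw hS
  have hpw : D.pos w ∉ D.E w x ++ [D.pos x] := by
    intro h
    rcases List.mem_append.1 h with h | h
    · exact hG.notin w hw x hx w hw (Ne.symm hxw) h
    · have h2 : D.pos w = D.pos x := by simpa using h
      exact hxw (hG.pos_inj w hw x hx h2).symm
  -- the spine points of the twisted edge
  have hP : (twist D w x).P w x =
      lp (D.pos w) 0 :: lp (D.pos w) 1 :: (D.E w x ++ [D.pos x]).map (fun c => lp c 0) := by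
    simp [Diag.P, twist]
  have hSw : (twist D w x).S w x = false := by simp [twist]
  have hPr : (twist D w x).P x w = ((twist D w x).P w x).reverse := by
    rw [hP]
    simp [Diag.P, twist, hxw]
  have hSr : (twist D w x).S x w = Nat.bodd ((D.E w x).length + 1) := by
    simp [twist, hxw]
  have hlen : ((twist D w x).P w x).length = (D.E w x).length + 3 := by
    rw [hP]; simp
  refine ⟨?_, ?_, ?_⟩
  · unfold Diag.A
    rw [hP, hSw, hS]
    have h2 : (D.P w x) = D.pos w :: (D.E w x ++ [D.pos x]) := rfl
    rw [h2, twa_ta_head D w _ true hpw]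
    simp [arcs]
  · intro t a b
    constructor
    · intro h
      have h3 := h1 (L ×ₗ ℤ) _ _ _ _ _ h
      unfold Diag.A
      rw [hPr, hSr]
      rw [hSw, hlen] at h3
      have h4 : xor false (Nat.bodd ((D.E w x).length + 3)) =
          Nat.bodd ((D.E w x).length + 1) := by
        simp [Nat.bodd_succ]
      rw [h4] at h3
      exact h3
    · intro h
      have h3 := h1 (L ×ₗ ℤ) _ _ _ _ _ h
      unfold Diag.A
      rw [hPr, hSr, List.reverse_reverse, List.length_reverse, hlen] at h3
      have h4 : xor (Nat.bodd ((D.E w x).length + 1)) (Nat.bodd ((D.E w x).length + 3)) =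
          false := by
        simp [Nat.bodd_succ]
      rw [h4] at h3
      rw [hSw]
      exact h3
  · intro y z h3 h4
    unfold Diag.A
    have hS2 : (twist D w x).S y z = D.S y z := by
      simp only [twist, if_neg h3, if_neg h4]
    have hP2 : (twist D w x).P y z = (D.P y z).map (fun c => lp c 0) := by
      simp only [Diag.P, twist, if_neg h3, if_neg h4, List.map_cons, List.map_append,
        List.map_nil]
    rw [hS2, hP2, twa_l0]

end Pool.MCR
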